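import Mathlib

/-!
# MP_e83c66_co : removing a vertex and the fixed clique property

The graph `G` on ten vertices below has 26 edges and 16 triangles; `x ↦ x + 5` (modulo ten) is an
automorphism of it which moves every vertex to a vertex not adjacent to it, so `G` does not have
the fixed clique property.  The neighbours of the vertex `3` induce a path on five vertices, and an
exhaustive search (run by the kernel) shows that `G` without the vertex `3` has the fixed clique
property.
-/

namespace Pool.Agent.Results.MP_e83c66_co.VertexRemoval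

/-- Simplicial endomorphisms: adjacent vertices go to equal or adjacent vertices. -/
def IsSimplicialEndo {V : Type} (G : SimpleGraph V) (f : V → V) : Prop :=
  ∀ x y : V, G.Adj x y → f x = f y ∨ G.Adj (f x) (f y)

/-- The fixed clique property: every simplicial endomorphism maps some nonempty set of pairwise
adjacent vertices onto itself. -/
def FixedCliqueProperty {V : Type} (G : SimpleGraph V) : Prop :=
  ∀ f : V → V, IsSimplicialEndo G f → ∃ C : Set V, C.Nonempty ∧ G.IsClique C ∧ f '' C = C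

/-- Bit `10 a + b` of this number says whether `a = b` or `a`, `b` are adjacent. -/
def tbl : ℕ :=
  0x35d + 0x23e * 2 ^ 10 + 0x11f * 2 ^ 20 + 0x0af * 2 ^ 30 + 0x077 * 2 ^ 40 + 0x3ba * 2 ^ 50 +
    0x3d1 * 2 ^ 60 + 0x3e8 * 2 ^ 70 + 0x1e5 * 2 ^ 80 + 0x2e3 * 2 ^ 90

/-- Equal or adjacent. -/
def adj (a b : ℕ) : Bool := Nat.testBit tbl (10 * a + b)

/-- The graph. -/
def G : SimpleGraph (Fin 10) where
  Adj a b := a ≠ b ∧ adj a.1 b.1 = true
  symm := ⟨by decide⟩
  loopless := ⟨by decide⟩

/-- May `x ↦ y` be added to the partial map `A`? -/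
def ok (A : List (ℕ × ℕ)) (x y : ℕ) : Bool :=
  !(Nat.beq x y) && A.all fun p => (!(adj x p.1) || adj y p.2) &&
    (!(Nat.beq p.1 y) || (!(Nat.beq p.2 x && adj x y) &&
      A.all fun q => !(Nat.beq q.1 p.2 && (Nat.beq q.2 x && (adj x y && (adj y q.1 && adj x q.1))))))

/-- Exhaustive search for an extension of the partial map `A` to the vertices in the list. -/
def search (S : List ℕ) : List ℕ → List (ℕ × ℕ) → Bool
  | [], _ => true
  | x :: xs, A => S.any fun y => ok A x y && search S xs ((x, y) :: A)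

/-- Simplicial self-maps of `S` without a fixed clique of size at most `3`. -/
structure Good (S : List ℕ) (F : ℕ → ℕ) : Prop where
  mem : ∀ a ∈ S, F a ∈ S
  map : ∀ a ∈ S, ∀ b ∈ S, adj a b = true → adj (F a) (F b) = true
  no1 : ∀ a ∈ S, F a ≠ a
  no2 : ∀ a ∈ S, F (F a) = a → adj a (F a) = false
  no3 : ∀ a ∈ S, F (F (F a)) = a → adj a (F a) = true → adj (F a) (F (F a)) = true →
    adj a (F (F a)) = false

theorem beq_false {a b : ℕ} (h : a ≠ b) : Nat.beq a b = false := by
  rw [← Bool.not_eq_true, Nat.beq_eq]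
  exact h

theorem ok_true {S : List ℕ} {F : ℕ → ℕ} (h : Good S F) {A : List (ℕ × ℕ)}
    (hA : ∀ p ∈ A, p.1 ∈ S ∧ p.2 = F p.1) {x : ℕ} (hx : x ∈ S) : ok A x (F x) = true := by
  unfold ok
  rw [Bool.and_eq_true]
  refine ⟨?_, ?_⟩
  · have := h.no1 x hx
    rw [Bool.not_eq_true', ← Bool.not_eq_true, Nat.beq_eq]
    exact fun e : x = F x => this e.symm
  · rw [List.all_eq_true]
    intro p hp
    obtain ⟨hp1, hp2⟩ := hA p hp
    rw [Bool.and_eq_true]
    refine ⟨?_, ?_⟩
    · by_cases hq : adj x p.1 = true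
      · rw [hp2, h.map x hx p.1 hp1 hq]; simp
      · simp [hq]
    · by_cases he : p.1 = F x
      · rw [Bool.or_eq_true]
        right
        rw [Bool.and_eq_true]
        refine ⟨?_, ?_⟩
        · by_cases hq : p.2 = x
          · have := h.no2 x hx (by rw [← he, ← hp2, hq])
            simp [this]
          · rw [beq_false hq]; rfl
        · rw [List.all_eq_true]
          intro q hq
          obtain ⟨hq1, hq2⟩ := hA q hq
          rw [Bool.not_eq_true', ← Bool.not_eq_true]
          intro hc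
          simp only [Bool.and_eq_true, Nat.beq_eq] at hc
          obtain ⟨e1, e2, e3, e4, e5⟩ := hc
          have e6 : q.1 = F (F x) := by rw [e1, hp2, he]
          rw [e6] at e4 e5
          have := h.no3 x hx (by rw [← e6, ← hq2, e2]) e3 e4
          rw [this] at e5
          exact Bool.false_ne_true e5
      · rw [Bool.or_eq_true]
        left
        rw [beq_false he]; rfl

theorem search_true {S : List ℕ} {F : ℕ → ℕ} (h : Good S F) :
    ∀ (xs : List ℕ) (A : List (ℕ × ℕ)), (∀ x ∈ xs, x ∈ S) → (∀ p ∈ A, p.1 ∈ S ∧ p.2 = F p.1) →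
      search S xs A = true := by
  intro xs
  induction xs with
  | nil => intro A _ _; rfl
  | cons x xs ih =>
    intro A hx hA
    have hxS : x ∈ S := hx x (by simp)
    rw [search, List.any_eq_true]
    refine ⟨F x, h.mem x hxS, ?_⟩
    rw [Bool.and_eq_true]
    refine ⟨ok_true h hA hxS, ih _ (fun z hz => hx z (by simp [hz])) ?_⟩
    intro p hp
    rcases List.mem_cons.1 hp with rfl | hp
    · exact ⟨hxS, rfl⟩
    · exact hA p hp

theorem no_good (S : List ℕ) (x0 : ℕ) (ord : ℕ → List ℕ)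
    (h0 : S.contains x0 = true)
    (hord : (S.all fun y => (ord y).all fun x => S.contains x) = true)
    (hs : (S.all fun y => Nat.beq y x0 || !(search S (ord y) [(x0, y)])) = true) (F : ℕ → ℕ) :
    ¬ Good S F := by
  intro h
  have hx0 : x0 ∈ S := by simpa using h0
  have hy := h.mem x0 hx0
  rw [List.all_eq_true] at hord hs
  have h1 := hord (F x0) hy
  have h2 := hs (F x0) hy
  rw [Bool.or_eq_true] at h2
  rcases h2 with h2 | h2
  · exact h.no1 x0 hx0 (by simpa using h2)
  · rw [search_true h (ord (F x0)) [(x0, F x0)] ?_ ?_] at h2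
    · simp at h2
    · intro x hx
      rw [List.all_eq_true] at h1
      simpa using h1 x hx
    · intro p hp
      simp only [List.mem_singleton] at hp
      subst hp
      exact ⟨hx0, rfl⟩

theorem adj_self : ∀ a : Fin 10, adj a.1 a.1 = true := by decide

theorem fcp_of_no_good (S : List ℕ) (hS : ∀ a ∈ S, a < 10) (h : ∀ F, ¬ Good S F) :
    FixedCliqueProperty (G.induce {w : Fin 10 | w.1 ∈ S}) := by
  classical
  intro f hf
  by_contra hC
  push Not at hC
  have hadj : ∀ x y : {w : Fin 10 | w.1 ∈ S},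
      (G.induce {w : Fin 10 | w.1 ∈ S}).Adj x y ↔ x ≠ y ∧ adj x.1.1 y.1.1 = true := by
    intro x y
    simp only [SimpleGraph.comap_adj, Function.Embedding.subtype_apply, G, ne_eq, Subtype.ext_iff]
  have hA1 : ∀ x y : {w : Fin 10 | w.1 ∈ S}, adj x.1.1 y.1.1 = true →
      adj (f x).1.1 (f y).1.1 = true := by
    intro x y hxy
    by_cases he : x = y
    · subst he; exact adj_self _
    · rcases hf x y ((hadj x y).2 ⟨he, hxy⟩) with h1 | h1
      · rw [h1]; exact adj_self _
      · exact ((hadj _ _).1 h1).2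
  have hsymm : ∀ x y : {w : Fin 10 | w.1 ∈ S}, adj x.1.1 y.1.1 = true →
      adj y.1.1 x.1.1 = true := by
    intro x y hxy
    by_cases he : x = y
    · subst he; exact adj_self _
    · exact ((hadj _ _).1 ((hadj x y).2 ⟨he, hxy⟩).symm).2
  let F : ℕ → ℕ := fun a => if ha : a ∈ S then (f ⟨⟨a, hS a ha⟩, ha⟩).1.1 else 0
  have hF : ∀ x : {w : Fin 10 | w.1 ∈ S}, F x.1.1 = (f x).1.1 := by
    intro x
    have hx : x.1.1 ∈ S := x.2
    simp only [F, hx, dif_pos]
  have hval : ∀ x y : {w : Fin 10 | w.1 ∈ S}, x.1.1 = y.1.1 → x = y := by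
    intro x y hxy
    exact Subtype.ext (Fin.ext hxy)
  refine h F ⟨?_, ?_, ?_, ?_, ?_⟩
  · intro a ha
    have := hF ⟨⟨a, hS a ha⟩, ha⟩
    simp only at this
    rw [this]
    exact (f _).2
  · intro a ha b hb hab
    have h1 := hF ⟨⟨a, hS a ha⟩, ha⟩
    have h2 := hF ⟨⟨b, hS b hb⟩, hb⟩
    simp only at h1 h2
    rw [h1, h2]
    exact hA1 _ _ hab
  · intro a ha hfa
    have h1 := hF ⟨⟨a, hS a ha⟩, ha⟩
    simp only at h1
    rw [h1] at hfa
    have h2 := hval (f ⟨⟨a, hS a ha⟩, ha⟩) ⟨⟨a, hS a ha⟩, ha⟩ hfa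
    refine hC {⟨⟨a, hS a ha⟩, ha⟩} (Set.singleton_nonempty _) (by simp) ?_
    rw [Set.image_singleton, h2]
  · intro a ha hfa
    set x : {w : Fin 10 | w.1 ∈ S} := ⟨⟨a, hS a ha⟩, ha⟩ with hxdef
    have h1 : F a = (f x).1.1 := hF x
    have h2 : F (F a) = (f (f x)).1.1 := by rw [h1]; exact hF (f x)
    rw [h2] at hfa
    have h3 : f (f x) = x := hval _ _ hfa
    rw [← Bool.not_eq_true, h1]
    intro hc
    have hc' : adj x.1.1 (f x).1.1 = true := hc
    refine hC {x, f x} (Set.insert_nonempty _ _) ?_ ?_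
    · rw [SimpleGraph.isClique_pair]
      intro hne
      exact (hadj _ _).2 ⟨hne, hc'⟩
    · rw [Set.image_pair, h3, Set.pair_comm]
  · intro a ha hfa h4 h5
    set x : {w : Fin 10 | w.1 ∈ S} := ⟨⟨a, hS a ha⟩, ha⟩ with hxdef
    have h1 : F a = (f x).1.1 := hF x
    have h2 : F (F a) = (f (f x)).1.1 := by rw [h1]; exact hF (f x)
    have h3 : F (F (F a)) = (f (f (f x))).1.1 := by rw [h2]; exact hF (f (f x))
    rw [h3] at hfa
    have h6 : f (f (f x)) = x := hval _ _ hfa
    rw [← Bool.not_eq_true, h2]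
    intro hc
    rw [h1] at h4
    rw [h1] at h5
    have h5' : adj (f x).1.1 (f (f x)).1.1 = true := by
      have := hF (f x)
      rwa [this] at h5
    have h4' : adj x.1.1 (f x).1.1 = true := h4
    have hc' : adj x.1.1 (f (f x)).1.1 = true := hc
    refine hC {x, f x, f (f x)} (Set.insert_nonempty _ _) ?_ ?_
    · intro p hp q hq hpq
      simp only [Set.mem_insert_iff, Set.mem_singleton_iff] at hp hq
      rcases hp with rfl | rfl | rfl <;> rcases hq with rfl | rfl | rfl <;>
        first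
        | exact absurd rfl hpq
        | exact (hadj _ _).2 ⟨hpq, h4'⟩
        | exact (hadj _ _).2 ⟨hpq, hc'⟩
        | exact (hadj _ _).2 ⟨hpq, h5'⟩
        | exact (hadj _ _).2 ⟨hpq, hsymm _ _ h4'⟩
        | exact (hadj _ _).2 ⟨hpq, hsymm _ _ hc'⟩
        | exact (hadj _ _).2 ⟨hpq, hsymm _ _ h5'⟩
    · rw [Set.image_insert_eq, Set.image_pair, h6]
      ext z
      simp only [Set.mem_insert_iff, Set.mem_singleton_iff]
      tauto

/-- Orders of search for the graph without the vertex `3`. -/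
def ordA : ℕ → List ℕ
  | 0 => [0, 4, 8, 2, 9, 1, 5, 7]
  | 1 => [4, 9, 1, 5, 2, 0, 7, 8]
  | 2 => [0, 4, 2, 8, 1, 5, 9, 7]
  | 4 => [4, 0, 2, 1, 5, 9, 8, 7]
  | 5 => [7, 9, 5, 8, 1, 4, 2, 0]
  | 7 => [7, 8, 9, 5, 1, 4, 2, 0]
  | 8 => [8, 0, 7, 2, 5, 4, 9, 1]
  | _ => [9, 7, 0, 5, 1, 4, 8, 2]

theorem fcp_rest : FixedCliqueProperty (G.induce {w : Fin 10 | w.1 ∈ [0, 1, 2, 4, 5, 6, 7, 8, 9]}) :=
  fcp_of_no_good _ (by decide)
    (no_good _ 6 ordA (by decide +kernel) (by decide +kernel) (by decide +kernel))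

theorem fcp_link : FixedCliqueProperty (G.induce {w : Fin 10 | w.1 ∈ [0, 1, 2, 5, 7]}) :=
  fcp_of_no_good _ (by decide)
    (no_good _ 0 (fun _ => [2, 1, 5, 7]) (by decide +kernel) (by decide +kernel)
      (by decide +kernel))

theorem not_fcp : ¬ FixedCliqueProperty G := by
  intro h
  obtain ⟨C, ⟨x, hx⟩, hC, hf⟩ := h (fun x => x + 5) (by unfold IsSimplicialEndo; simp only [G]; decide)
  have hx' : x + 5 ∈ C := by
    rw [← hf]
    exact ⟨x, hx, rfl⟩
  have hne : ∀ x : Fin 10, x ≠ x + 5 := by decide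
  have h1 := (hC hx hx' (hne x)).2
  have h2 : ∀ x : Fin 10, ¬ adj x.1 (x + 5).1 = true := by decide
  exact h2 x h1

/-- There are a graph on ten vertices and a vertex `v` of it such that the subgraph induced by the
neighbours of `v` and the subgraph induced by the vertices other than `v` both have the fixed
clique property, while the graph itself does not. -/
theorem result : ∃ (G : SimpleGraph (Fin 10)) (v : Fin 10),
    FixedCliqueProperty (G.induce (G.neighborSet v)) ∧
    FixedCliqueProperty (G.induce {w | w ≠ v}) ∧ ¬ FixedCliqueProperty G := by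
  refine ⟨G, 3, ?_, ?_, not_fcp⟩
  · have h : G.neighborSet 3 = {w : Fin 10 | w.1 ∈ [0, 1, 2, 5, 7]} := by
      ext w
      simp only [SimpleGraph.mem_neighborSet, G]
      revert w
      decide
    rw [h]
    exact fcp_link
  · have h : {w : Fin 10 | w ≠ 3} = {w : Fin 10 | w.1 ∈ [0, 1, 2, 4, 5, 6, 7, 8, 9]} := by
      ext w
      revert w
      decide
    rw [h]
    exact fcp_rest

end Pool.Agent.Results.MP_e83c66_co.VertexRemoval
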